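import Mathlib

set_option autoImplicit false

namespace Pool.Agent.W992.NC

open PowerSeries

/-- Two sequences with Newton's recursions of both signs, both eventually zero: `t 1 = 0`. -/
theorem core (F : Type) [Field F] [CharZero F] (t e h : ℕ → F) (he0 : e 0 = 1) (hh0 : h 0 = 1)
    (he : ∀ n, e (n + 1) = ∑ k ∈ Finset.range (n + 1),
      ((-1) ^ k * (n.descFactorial k : F)) * (e (n - k) * t (k + 1)))
    (hh : ∀ n, h (n + 1) = ∑ k ∈ Finset.range (n + 1),
      (n.descFactorial k : F) * (h (n - k) * t (k + 1)))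
    (hea : ∃ a, ∀ n, a ≤ n → e n = 0) (hhb : ∃ b, ∀ n, b ≤ n → h n = 0) : t 1 = 0 := by
  classical
  obtain ⟨a, ha⟩ := hea
  obtain ⟨b, hb⟩ := hhb
  have fne : ∀ n : ℕ, (n.factorial : F) ≠ 0 := fun n => by
    exact_mod_cast Nat.factorial_ne_zero n
  have key : ∀ n k : ℕ, k ≤ n →
      (n.descFactorial k : F) / (n.factorial : F) = 1 / ((n - k).factorial : F) := by
    intro n k hk
    have := Nat.factorial_mul_descFactorial hk
    rw [div_eq_div_iff (fne n) (fne (n - k)), one_mul, mul_comm]
    exact_mod_cast this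
  set H : PowerSeries F := PowerSeries.mk fun n => h n / (n.factorial : F) with hH
  set E : PowerSeries F := PowerSeries.mk fun n => (-1) ^ n * (e n / (n.factorial : F)) with hE
  set T : PowerSeries F := PowerSeries.mk fun n => t (n + 1) with hT
  have dfac : ∀ (n : ℕ) (x : F), x / ((n + 1).factorial : F) * ((n : F) + 1) =
      x / (n.factorial : F) := by
    intro n x
    have h1 : ((n : F) + 1) ≠ 0 := by exact_mod_cast Nat.succ_ne_zero n
    rw [Nat.factorial_succ]
    push_cast
    field_simp
  have dH : d⁄dX F H = T * H := by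
    ext n
    rw [PowerSeries.coeff_derivative, PowerSeries.coeff_mul, hH, hT, PowerSeries.coeff_mk, dfac,
      hh n, Finset.sum_div, Finset.Nat.sum_antidiagonal_eq_sum_range_succ_mk]
    refine Finset.sum_congr rfl fun k hk => ?_
    have hk' : k ≤ n := Nat.lt_succ_iff.mp (Finset.mem_range.mp hk)
    simp only [PowerSeries.coeff_mk]
    rw [mul_div_right_comm, key n k hk']
    ring
  have dE : d⁄dX F E = - (T * E) := by
    ext n
    rw [map_neg, PowerSeries.coeff_derivative, PowerSeries.coeff_mul, hE, hT, PowerSeries.coeff_mk,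
      mul_assoc, dfac, he n, Finset.sum_div, Finset.mul_sum,
      Finset.Nat.sum_antidiagonal_eq_sum_range_succ_mk, ← Finset.sum_neg_distrib]
    refine Finset.sum_congr rfl fun k hk => ?_
    have hk' : k ≤ n := Nat.lt_succ_iff.mp (Finset.mem_range.mp hk)
    simp only [PowerSeries.coeff_mk]
    have h2 : ((-1 : F) ^ k * (n.descFactorial k : F)) * (e (n - k) * t (k + 1)) /
        (n.factorial : F) = (-1 : F) ^ k * (1 / ((n - k).factorial : F)) *
          (e (n - k) * t (k + 1)) := by
      rw [← key n k hk']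
      ring
    rw [h2]
    have h3 : (-1 : F) ^ (n + 1) * (-1) ^ k = - (-1) ^ (n - k) := by
      obtain ⟨m, rfl⟩ := Nat.exists_eq_add_of_le hk'
      rw [Nat.add_sub_cancel_left, pow_succ, pow_add]
      have : (-1 : F) ^ k * (-1) ^ k = 1 := by rw [← mul_pow]; simp
      linear_combination (-(-1 : F) ^ m) * this
    linear_combination (t (k + 1) * (e (n - k) / ((n - k).factorial : F))) * h3
  have dG : d⁄dX F (E * H) = d⁄dX F (1 : PowerSeries F) := by
    rw [Derivation.leibniz, dH, dE]
    simp only [smul_eq_mul, Derivation.map_one_eq_zero]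
    ring
  have G1 : E * H = 1 := by
    refine PowerSeries.derivative.ext dG ?_
    rw [map_mul, hE, hH]
    simp [he0, hh0]
  -- polynomials
  have cE : ((PowerSeries.trunc a E : Polynomial F) : PowerSeries F) = E := by
    ext n
    rw [Polynomial.coeff_coe, PowerSeries.coeff_trunc]
    split_ifs with h1
    · rfl
    · rw [hE, PowerSeries.coeff_mk, ha n (by omega)]
      simp
  have cH : ((PowerSeries.trunc b H : Polynomial F) : PowerSeries F) = H := by
    ext n
    rw [Polynomial.coeff_coe, PowerSeries.coeff_trunc]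
    split_ifs with h1
    · rfl
    · rw [hH, PowerSeries.coeff_mk, hb n (by omega)]
      simp
  have hPQ : PowerSeries.trunc a E * PowerSeries.trunc b H = (1 : Polynomial F) := by
    apply Polynomial.coe_injective F
    rw [Polynomial.coe_mul, cE, cH, G1, Polynomial.coe_one]
  have hu : IsUnit (PowerSeries.trunc b H : Polynomial F) :=
    IsUnit.of_mul_eq_one _ (by rw [mul_comm]; exact hPQ)
  obtain ⟨r, _, hr⟩ := Polynomial.isUnit_iff.mp hu
  have h1 : PowerSeries.coeff 1 H = 0 := by
    rw [← cH, Polynomial.coeff_coe, ← hr, Polynomial.coeff_C]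
    simp
  rw [hH, PowerSeries.coeff_mk] at h1
  have h2 : h 1 = 0 := by simpa using h1
  have h3 := hh 0
  simp [hh0] at h3
  rw [← h3]
  simpa using h2

end Pool.Agent.W992.NC
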