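import Pool.Agent.W813.NC.Stm
import Pool.Agent.W992.NC.AlgCore

set_option autoImplicit false

namespace Pool.Agent.W992.NC

open Pool.Agent.W813.NC

theorem alg (F : Type) [Field F] [CharZero F] : S_ALG F := by
  intro t e h he0 hh0 he hh hea hhb
  exact core F t e h he0 hh0 he hh hea hhb

end Pool.Agent.W992.NC
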